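import Mathlib

/-!
Counting series for SDET.
-/

namespace Helper86.SDET

open scoped ENNReal BigOperators

/-- LC1 -/
theorem tsum_pi (n : ℕ) : ∀ (w : Fin n → ℕ) (Q : ℝ≥0∞),
    ∑' f : Fin n → ℕ, Q ^ (∑ i, w i * f i) = ∏ i, (1 - Q ^ w i)⁻¹ := by
  induction n with
  | zero =>
    intro w Q
    simp
  | succ n ih =>
    intro w Q
    have h0 : ∑' f : Fin (n + 1) → ℕ, Q ^ (∑ i, w i * f i) =
        ∑' p : ℕ × (Fin n → ℕ), (Q ^ w 0) ^ p.1 * Q ^ (∑ i : Fin n, w i.succ * p.2 i) := by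
      rw [← (Fin.consEquiv (fun _ : Fin (n + 1) => ℕ)).tsum_eq]
      refine tsum_congr fun p => ?_
      rw [Fin.sum_univ_succ, pow_add, pow_mul]
      rfl
    rw [h0, ENNReal.tsum_prod (f := fun a (b : Fin n → ℕ) => (Q ^ w 0) ^ a * Q ^ (∑ i : Fin n, w i.succ * b i)),
      Fin.prod_univ_succ]
    simp_rw [ENNReal.tsum_mul_left, ENNReal.tsum_mul_right, ih (fun i => w i.succ) Q]
    rw [ENNReal.tsum_geometric]

/-- LC2 -/
theorem tsum_fib {T : Type*} (w : T → ℕ) (hw : ∀ e, Finite {x // w x = e}) (Q : ℝ≥0∞) :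
    ∑' x, Q ^ w x = ∑' e, Q ^ e * (Nat.card {x // w x = e} : ℝ≥0∞) := by
  rw [← (Equiv.sigmaFiberEquiv w).tsum_eq,
    ENNReal.tsum_sigma' (f := fun c => Q ^ w ((Equiv.sigmaFiberEquiv w) c))]
  refine tsum_congr fun e => ?_
  have := hw e
  have := Fintype.ofFinite {x // w x = e}
  have h1 : ∀ x : {x // w x = e}, Q ^ w ((Equiv.sigmaFiberEquiv w) ⟨e, x⟩) = Q ^ e := by
    intro x
    rw [Equiv.sigmaFiberEquiv_apply, x.2]
  rw [tsum_congr h1, tsum_fintype, Finset.sum_const, Nat.card_eq_fintype_card, nsmul_eq_mul, mul_comm,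
    Finset.card_univ]

open MvPolynomial in
theorem finrank_homog {K : Type*} [Field K] {σ : Type*} (e : ℕ) :
    Module.finrank K (homogeneousSubmodule σ K e) = Nat.card {u : σ →₀ ℕ // u.degree = e} := by
  rw [homogeneousSubmodule_eq_finsupp_supported σ K e,
    (AddMonoidAlgebra.supportedEquivFinsupp (R := K) (S := K) {d : σ →₀ ℕ | d.degree = e}).finrank_eq]
  exact Module.finrank_eq_nat_card_basis
    (Finsupp.basisSingleOne (R := K) (ι := {d : σ →₀ ℕ | d.degree = e}))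

theorem finite_degree {σ : Type*} [Finite σ] (e : ℕ) : Finite {u : σ →₀ ℕ // u.degree = e} := by
  exact (Finsupp.finite_of_degree_le e).subset (fun u (hu : u.degree = e) => hu.le) |>.to_subtype

open MvPolynomial in
/-- LC3: the series of all monomials -/
theorem tsum_mon {K : Type*} [Field K] {σ : Type*} [Fintype σ] (Q : ℝ≥0∞) :
    ∑' e, Q ^ e * (Module.finrank K (homogeneousSubmodule σ K e) : ℝ≥0∞) =
      ((1 - Q)⁻¹) ^ Fintype.card σ := by
  simp_rw [finrank_homog]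
  rw [← tsum_fib (fun u : σ →₀ ℕ => u.degree) (fun e => finite_degree e) Q]
  have e1 : (σ →₀ ℕ) ≃ (Fin (Fintype.card σ) → ℕ) :=
    Finsupp.equivFunOnFinite.trans (Equiv.arrowCongr (Fintype.equivFin σ) (Equiv.refl ℕ))
  have h1 : ∑' u : σ →₀ ℕ, Q ^ u.degree = ∑' f : Fin (Fintype.card σ) → ℕ, Q ^ (∑ i, 1 * f i) := by
    rw [← (Finsupp.equivFunOnFinite.trans
      (Equiv.arrowCongr (Fintype.equivFin σ) (Equiv.refl ℕ))).symm.tsum_eq]
    refine tsum_congr fun f => ?_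
    congr 1
    rw [Finsupp.degree_eq_sum]
    simp only [one_mul]
    exact Fintype.sum_equiv (Fintype.equivFin σ) _ _ fun i => rfl
  rw [h1, tsum_pi]
  simp

end Helper86.SDET
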