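import Mathlib

/-!
N3: numerics of the final statement (cofactors of degree `ν < n`).
-/

namespace Helper86.SDET

open Real

theorem exp_neg_one_le : exp (-1) ≤ 1 / 2 := by
  rw [exp_neg]
  have h : (2 : ℝ) ≤ exp 1 := by
    have := exp_one_gt_d9
    linarith
  rw [inv_eq_one_div]
  exact one_div_le_one_div_of_le (by norm_num) h

/-- The sum over the index sets, for any upper bound `y` of `m x`. -/
theorem sum_choose_le {m k : ℕ} (hk : 1 ≤ k) (hkm : k ≤ m) {x y : ℝ} (hx : 0 ≤ x)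
    (hxy : m * x ≤ y) (hy : (k : ℝ) ≤ y) :
    ∑ j ∈ Finset.range (k + 1), (Nat.choose (m - k - 1 + j) j : ℝ) * x ^ j ≤
      (exp 1 * y / k) ^ k := by
  have hk0 : (0 : ℝ) < k := by exact_mod_cast hk
  have hy0 : 0 < y := lt_of_lt_of_le hk0 hy
  have h1 : 1 ≤ y / k := by rwa [le_div_iff₀ hk0, one_mul]
  have hmx : 0 ≤ m * x := by positivity
  have h2 : ∀ j ∈ Finset.range (k + 1), (Nat.choose (m - k - 1 + j) j : ℝ) * x ^ j ≤
      (y / k) ^ k * ((k : ℝ) ^ j / j.factorial) := by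
    intro j hj
    rw [Finset.mem_range] at hj
    have h3 : (Nat.choose (m - k - 1 + j) j : ℝ) ≤ (m : ℝ) ^ j / j.factorial := by
      refine (Nat.choose_le_pow_div j (m - k - 1 + j)).trans ?_
      have h4 : ((m - k - 1 + j : ℕ) : ℝ) ≤ m := by
        have : m - k - 1 + j ≤ m := by omega
        exact_mod_cast this
      gcongr
    calc (Nat.choose (m - k - 1 + j) j : ℝ) * x ^ j ≤ (m : ℝ) ^ j / j.factorial * x ^ j := by
          gcongr
      _ = (m * x) ^ j / j.factorial := by rw [mul_pow]; ring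
      _ ≤ y ^ j / j.factorial := by gcongr
      _ = (y / k) ^ j * ((k : ℝ) ^ j / j.factorial) := by
          rw [div_pow]
          field_simp
      _ ≤ (y / k) ^ k * ((k : ℝ) ^ j / j.factorial) := by
          have h5 : (y / k) ^ j ≤ (y / k) ^ k := pow_le_pow_right₀ h1 (by omega)
          gcongr
  calc ∑ j ∈ Finset.range (k + 1), (Nat.choose (m - k - 1 + j) j : ℝ) * x ^ j
      ≤ ∑ j ∈ Finset.range (k + 1), (y / k) ^ k * ((k : ℝ) ^ j / j.factorial) :=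
        Finset.sum_le_sum h2
    _ = (y / k) ^ k * ∑ j ∈ Finset.range (k + 1), (k : ℝ) ^ j / j.factorial := by
        rw [Finset.mul_sum]
    _ ≤ (y / k) ^ k * exp k := by
        have h6 := sum_le_exp_of_nonneg hk0.le (k + 1)
        gcongr
    _ = (exp 1 * y / k) ^ k := by
        have h7 : exp (k : ℝ) = exp 1 ^ k := by
          rw [← exp_nat_mul, mul_one]
        rw [h7, ← mul_pow]
        congr 1
        ring

/-- the two numerical facts about `t` -/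
theorem key {μ η C t ℓ : ℝ} (hμ : 1 ≤ μ) (hη0 : 0 < η) (hη1 : η ≤ 1) (hC : C = exp 8)
    (ht : t = (C * μ * (1 + log (μ / η)) / η) ^ (1 / η)) (hℓ : log t ≤ ℓ) :
    0 < t ∧ 8 ≤ log t ∧ 8 ≤ η * log t ∧ 1 + log (6 * exp 1 * μ * ℓ) ≤ η * ℓ := by
  have hμη : 1 ≤ μ / η := by rw [le_div_iff₀ hη0]; linarith
  set L := 1 + log (μ / η) with hL
  have hL1 : 1 ≤ L := by
    have := log_nonneg hμη
    linarith
  have hC0 : 0 < C := by rw [hC]; exact exp_pos _
  have hC1 : log C = 8 := by rw [hC, log_exp]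
  set B := C * μ * L / η with hB
  have hB0 : 0 < B := by positivity
  have hlogB : log B = 8 + log (μ / η) + log L := by
    have : B = C * (μ / η) * L := by rw [hB]; ring
    rw [this, log_mul (by positivity) (by positivity), log_mul (by positivity) (by positivity), hC1]
  have hlogB8 : 8 ≤ log B := by
    rw [hlogB]
    have := log_nonneg hμη
    have := log_nonneg hL1
    linarith
  have hlogt : log t = 1 / η * log B := by rw [ht, log_rpow hB0]
  have ht0 : 0 < t := by rw [ht]; exact rpow_pos_of_pos hB0 _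
  have h1 : η * log t = log B := by rw [hlogt]; field_simp
  have h2 : 8 ≤ η * log t := by rw [h1]; exact hlogB8
  have hlogt8 : 8 ≤ log t := by nlinarith
  have hlt0 : 0 < log t := by linarith
  have hℓ0 : 0 < ℓ := by linarith
  refine ⟨ht0, hlogt8, h2, ?_⟩
  have h3 : log (6 * exp 1 * μ * ℓ) = log 6 + 1 + log μ + log ℓ := by
    rw [log_mul (by positivity) (by positivity), log_mul (by positivity) (by positivity),
      log_mul (by positivity) (by positivity), log_exp]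
  have h4 : log ℓ ≤ log (log t) + η * (ℓ - log t) := by
    have h5 : log (ℓ / log t) ≤ ℓ / log t - 1 := log_le_sub_one_of_pos (by positivity)
    rw [log_div hℓ0.ne' hlt0.ne'] at h5
    have h6 : ℓ / log t - 1 = (ℓ - log t) / log t := by field_simp
    have h7 : (ℓ - log t) / log t ≤ η * (ℓ - log t) := by
      rw [div_le_iff₀ hlt0]
      have : 0 ≤ ℓ - log t := by linarith
      nlinarith
    linarith
  have h8 : log (log t) = log (log B) - log η := by
    have : log t = log B / η := by rw [hlogt]; ring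
    rw [this, log_div (by linarith) hη0.ne']
  have h9 : log (μ / η) = log μ - log η := log_div (by positivity) hη0.ne'
  have h10 : log (log B) ≤ log 8 + log L := by
    rw [← log_mul (by norm_num) (by positivity)]
    apply log_le_log (by linarith)
    rw [hlogB]
    have := log_le_sub_one_of_pos (show (0 : ℝ) < L by linarith)
    have : log (μ / η) = L - 1 := by rw [hL]; ring
    linarith
  have h11 : log 8 + log 6 ≤ 4 := by
    rw [← log_mul (by norm_num) (by norm_num)]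
    rw [log_le_iff_le_exp (by norm_num)]
    have h12 : (2.7 : ℝ) ≤ exp 1 := by
      have := exp_one_gt_d9
      linarith
    calc (8 * 6 : ℝ) ≤ 2.7 ^ 4 := by norm_num
      _ ≤ exp 1 ^ 4 := pow_le_pow_left₀ (by norm_num) h12 4
      _ = exp 4 := by rw [← exp_nat_mul]; norm_num
  rw [h3]
  nlinarith

/-- the choice of `N`, as large as possible -/
theorem choose_N {n a N0 : ℕ} (h : 2 * (N0 + a) + 1 ≤ n) :
    ∃ D N : ℕ, 1 ≤ D ∧ N0 ≤ N ∧ D * (2 * (N + a) + 1) ≤ n ∧ n < D * (2 * (N + a) + 3) ∧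
      n ≤ 2 * D * (2 * (N0 + a) + 1) := by
  set w := 2 * (N0 + a) + 1 with hw
  have hw0 : 0 < w := by omega
  set D := n / w with hD
  have hD1 : 1 ≤ D := by rw [hD]; exact (Nat.one_le_div_iff hw0).2 h
  set u := n / D with hu
  have hu1 : w ≤ u := by
    rw [hu, Nat.le_div_iff_mul_le hD1, mul_comm]
    rw [hD]; exact Nat.div_mul_le_self n w
  have hu2 : D * u ≤ n := by rw [hu]; exact Nat.mul_div_le n D
  have hu3 : n < D * (u + 1) := by rw [hu]; exact Nat.lt_mul_div_succ n hD1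
  have hw3 : n < w * (D + 1) := by rw [hD]; exact Nat.lt_mul_div_succ n hw0
  refine ⟨D, (u - 1) / 2 - a, hD1, by omega, ?_, ?_, ?_⟩
  · refine le_trans (Nat.mul_le_mul_left D ?_) hu2
    omega
  · refine lt_of_lt_of_le hu3 (Nat.mul_le_mul_left D ?_)
    omega
  · have : w * (D + 1) ≤ 2 * D * w := by nlinarith
    omega

/-- the number of blocks is smaller than the size -/
theorem D_lt {n m d ν D N a : ℕ} {η ℓ τ : ℝ} (hη0 : 0 < η) (hνη : (ν : ℝ) = (1 - η) * n)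
    (hnm : (n : ℝ) ≤ m * d + ν) (hd : (1 : ℝ) ≤ d) (hD : (1 : ℝ) ≤ D) (hτ : 0 < τ) (hℓ0 : 0 < ℓ)
    (hηℓ : 8 ≤ η * ℓ) (hDN : (D : ℝ) * (2 * (N + a) + 1) ≤ n) (hN : 4 * (τ + d) * ℓ ≤ N) :
    D < m := by
  have h1 : η * n ≤ m * d := by
    have : η * n = n - ν := by rw [hνη]; ring
    linarith
  have h3 : 4 * (d : ℝ) * ℓ ≤ N := by
    refine le_trans ?_ hN
    have : 0 ≤ 4 * τ * ℓ := by positivity
    linarith
  have ha0 : (0 : ℝ) ≤ a := Nat.cast_nonneg a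
  have h4 : (D : ℝ) * (2 * (4 * d * ℓ)) ≤ n := by
    refine le_trans ?_ hDN
    have : 2 * (4 * (d : ℝ) * ℓ) ≤ 2 * (N + a) + 1 := by linarith
    exact mul_le_mul_of_nonneg_left this (by linarith)
  have h5 : 64 * ((D : ℝ) * d) ≤ m * d := by
    refine le_trans ?_ h1
    calc 64 * ((D : ℝ) * d) = 8 * (8 * (D * d)) := by ring
      _ ≤ (η * ℓ) * (8 * (D * d)) := by gcongr
      _ = η * (D * (2 * (4 * d * ℓ))) := by ring
      _ ≤ η * n := by gcongr
  have h7 : (64 : ℝ) * D ≤ m := by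
    have h8 : (0 : ℝ) < d := by linarith
    refine le_of_mul_le_mul_right ?_ h8
    linarith
  have : (D : ℝ) < m := by linarith
  exact_mod_cast this

/-- the sum over the index sets -/
theorem sum_le {m n d D N a : ℕ} {μ ℓ x q : ℝ} (hD : 1 ≤ D) (hDm : D < m) (hμ1 : 1 ≤ μ)
    (hμm : (m : ℝ) * d ≤ μ * n) (hℓ1 : 1 ≤ ℓ) (hx0 : 0 < x) (hNx : N * x = ℓ)
    (hnD : (n : ℝ) < D * (2 * (N + a) + 3)) (haN : 2 * (a : ℝ) + 3 ≤ N)
    (hq0 : 0 < q) (hq1 : q < 1) (hqd : 1 - q ^ d ≤ d * x) :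
    ∑ j ∈ Finset.range (2 * D + 1), (Nat.choose (2 * m - 2 * D - 1 + j) j : ℝ) * (1 - q ^ d) ^ j ≤
      (3 * exp 1 * μ * ℓ) ^ (2 * D) := by
  have hD0 : (0 : ℝ) < D := by exact_mod_cast hD
  have h1 : 0 ≤ 1 - q ^ d := by
    have : q ^ d ≤ 1 := pow_le_one₀ hq0.le hq1.le
    linarith
  have h5 : (n : ℝ) * x ≤ 3 * D * ℓ := by
    have h6 : (n : ℝ) ≤ D * (3 * N) := by
      refine hnD.le.trans ?_
      have : (2 * ((N : ℝ) + a) + 3) ≤ 3 * N := by linarith
      exact mul_le_mul_of_nonneg_left this hD0.le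
    calc (n : ℝ) * x ≤ D * (3 * N) * x := by gcongr
      _ = 3 * D * (N * x) := by ring
      _ = 3 * D * ℓ := by rw [hNx]
  have hy1 : ((2 * m : ℕ) : ℝ) * (1 - q ^ d) ≤ 6 * D * μ * ℓ := by
    push_cast
    calc 2 * (m : ℝ) * (1 - q ^ d) ≤ 2 * m * (d * x) := by gcongr
      _ = 2 * (m * d * x) := by ring
      _ ≤ 2 * (μ * n * x) := by gcongr
      _ = 2 * (μ * (n * x)) := by ring
      _ ≤ 2 * (μ * (3 * D * ℓ)) := by gcongr
      _ = 6 * D * μ * ℓ := by ring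
  have hy2 : ((2 * D : ℕ) : ℝ) ≤ 6 * D * μ * ℓ := by
    push_cast
    have h7 : 1 ≤ μ * ℓ := one_le_mul_of_one_le_of_one_le hμ1 hℓ1
    calc 2 * (D : ℝ) ≤ 6 * D * 1 := by linarith
      _ ≤ 6 * D * (μ * ℓ) := by gcongr
      _ = 6 * D * μ * ℓ := by ring
  have h3 := sum_choose_le (m := 2 * m) (k := 2 * D) (by omega) (by omega) h1 hy1 hy2
  refine h3.trans (le_of_eq ?_)
  congr 1
  push_cast
  field_simp
  ring

/-- from the inequality to the bound for `T` -/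
theorem exp_le_T {D N a d ν n : ℕ} {T x ℓ η μ τ : ℝ} (hd : (1 : ℝ) ≤ d) (hD : (1 : ℝ) ≤ D)
    (hx0 : 0 < x) (hNx : N * x = ℓ) (hη1 : η ≤ 1) (hνη : (ν : ℝ) = (1 - η) * n)
    (hnD : (n : ℝ) < D * (2 * (N + a) + 3)) (haτ : (a : ℝ) + 1 = τ)
    (hτdx : 4 * (τ + d) * x ≤ 1) (hμ1 : 1 ≤ μ) (hℓ1 : 1 ≤ ℓ)
    (hkey : 1 + log (6 * exp 1 * μ * ℓ) ≤ η * ℓ)
    (hmain : exp (-((ν + D * (d - 1)) * x)) * (1 / 2) ^ (2 * D) ≤
        exp (-((N - a) * (2 * D) * x)) * (T * (3 * exp 1 * μ * ℓ) ^ (2 * D))) :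
    exp D ≤ T := by
  have hD0 : (0 : ℝ) < D := by linarith
  have h1 : (6 * exp 1 * μ * ℓ) ^ (2 * D) = exp (2 * D * log (6 * exp 1 * μ * ℓ)) := by
    rw [show 2 * (D : ℝ) * log (6 * exp 1 * μ * ℓ) = (2 * D : ℕ) * log (6 * exp 1 * μ * ℓ) by
      push_cast; ring, exp_nat_mul, exp_log (by positivity)]
  have h2 : exp (((N : ℝ) - a) * (2 * D) * x - (ν + D * (d - 1)) * x) ≤
      T * (6 * exp 1 * μ * ℓ) ^ (2 * D) := by
    have h3 : (6 * exp 1 * μ * ℓ) ^ (2 * D) = 2 ^ (2 * D) * (3 * exp 1 * μ * ℓ) ^ (2 * D) := by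
      rw [← mul_pow]; congr 1; ring
    rw [h3, sub_eq_add_neg, exp_add]
    have h4 := mul_le_mul_of_nonneg_left hmain
      (show 0 ≤ exp (((N : ℝ) - a) * (2 * D) * x) * 2 ^ (2 * D) by positivity)
    have h5 : exp (((N : ℝ) - a) * (2 * D) * x) * exp (-((N - a) * (2 * D) * x)) = 1 := by
      rw [← exp_add, add_neg_cancel, exp_zero]
    have h6 : (2 : ℝ) ^ (2 * D) * (1 / 2) ^ (2 * D) = 1 := by
      rw [← mul_pow]; norm_num
    calc exp (((N : ℝ) - a) * (2 * D) * x) * exp (-((ν + D * (d - 1)) * x))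
        = exp (((N : ℝ) - a) * (2 * D) * x) * exp (-((ν + D * (d - 1)) * x)) *
          (2 ^ (2 * D) * (1 / 2) ^ (2 * D)) := by rw [h6, mul_one]
      _ = exp (((N : ℝ) - a) * (2 * D) * x) * 2 ^ (2 * D) *
          (exp (-((ν + D * (d - 1)) * x)) * (1 / 2) ^ (2 * D)) := by ring
      _ ≤ _ := h4
      _ = (exp (((N : ℝ) - a) * (2 * D) * x) * exp (-((N - a) * (2 * D) * x))) *
          (T * (2 ^ (2 * D) * (3 * exp 1 * μ * ℓ) ^ (2 * D))) := by ring
      _ = _ := by rw [h5, one_mul]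
  rw [h1] at h2
  have h7 : exp (((N : ℝ) - a) * (2 * D) * x - (ν + D * (d - 1)) * x) *
      exp (-(2 * D * log (6 * exp 1 * μ * ℓ))) ≤ T := by
    calc _ ≤ T * exp (2 * D * log (6 * exp 1 * μ * ℓ)) *
        exp (-(2 * D * log (6 * exp 1 * μ * ℓ))) := by gcongr
      _ = T := by rw [mul_assoc, ← exp_add, add_neg_cancel, exp_zero, mul_one]
  refine le_trans ?_ h7
  rw [← exp_add]
  apply exp_le_exp.2
  have ha0 : (0 : ℝ) ≤ a := Nat.cast_nonneg a
  have h8 : (ν : ℝ) * x ≤ 2 * D * ((1 - η) * ℓ) + D * (2 * a + 3) * x := by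
    have h9 : (ν : ℝ) ≤ (1 - η) * (D * (2 * N)) + D * (2 * a + 3) := by
      have h0 : 0 ≤ 1 - η := by linarith
      have hη0 : 1 - η ≤ 1 ∨ 1 < 1 - η := le_or_gt _ _
      have h10 : (1 - η) * n ≤ (1 - η) * (D * (2 * (N + a) + 3)) := by gcongr
      have hℓη : 0 ≤ η := by
        by_contra hneg
        rw [not_le] at hneg
        have h20 : η * ℓ < 0 := mul_neg_of_neg_of_pos hneg (by linarith)
        have h21 : 0 ≤ log (6 * exp 1 * μ * ℓ) := by
          apply log_nonneg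
          have h22 : (1 : ℝ) ≤ exp 1 := one_le_exp (by norm_num)
          have h23 : 1 ≤ 6 * exp 1 := by linarith
          have h24 : 1 ≤ 6 * exp 1 * μ := one_le_mul_of_one_le_of_one_le h23 hμ1
          exact one_le_mul_of_one_le_of_one_le h24 hℓ1
        linarith
      have h11 : (1 - η) * (D * (2 * a + 3)) ≤ 1 * (D * (2 * a + 3)) := by
        have : (0 : ℝ) ≤ D * (2 * a + 3) := by positivity
        exact mul_le_mul_of_nonneg_right (by linarith) this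
      rw [hνη]
      calc (1 - η) * n ≤ (1 - η) * (D * (2 * (N + a) + 3)) := h10
        _ = (1 - η) * (D * (2 * N)) + (1 - η) * (D * (2 * a + 3)) := by ring
        _ ≤ _ := by linarith
    calc (ν : ℝ) * x ≤ ((1 - η) * (D * (2 * N)) + D * (2 * a + 3)) * x := by gcongr
      _ = 2 * D * ((1 - η) * (N * x)) + D * (2 * a + 3) * x := by ring
      _ = _ := by rw [hNx]
  have h12 : ((N : ℝ) - a) * (2 * D) * x = 2 * D * ℓ - 2 * D * a * x := by
    rw [← hNx]; ring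
  have h13 : (D : ℝ) * ((4 * a + d + 2) * x) ≤ D * 1 := by
    have h14 : (4 * (a : ℝ) + d + 2) * x ≤ 1 := by
      refine le_trans ?_ hτdx
      have : 4 * (a : ℝ) + d + 2 ≤ 4 * (τ + d) := by linarith
      gcongr
    exact mul_le_mul_of_nonneg_left h14 hD0.le
  have h15 := mul_le_mul_of_nonneg_left hkey (show 0 ≤ 2 * (D : ℝ) by positivity)
  rw [h12]
  have e1 : 2 * (D : ℝ) * ((1 - η) * ℓ) = 2 * D * ℓ - 2 * D * (η * ℓ) := by ring
  have e2 : (D : ℝ) * ((4 * a + d + 2) * x) = D * (2 * a + 3) * x + 2 * D * a * x + D * (d - 1) * x := by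
    ring
  have e3 : ((ν : ℝ) + D * (d - 1)) * x = ν * x + D * (d - 1) * x := by ring
  have e4 : 2 * (D : ℝ) * (1 + log (6 * exp 1 * μ * ℓ)) = 2 * D + 2 * D * log (6 * exp 1 * μ * ℓ) := by ring
  rw [e3]
  rw [e4] at h15
  rw [e2] at h13
  rw [e1] at h8
  linarith

theorem exp_eight : (100 : ℝ) ≤ exp 8 := by
  have h12 : (2.7 : ℝ) ≤ exp 1 := by
    have := exp_one_gt_d9
    linarith
  calc (100 : ℝ) ≤ 2.7 ^ 8 := by norm_num
    _ ≤ exp 1 ^ 8 := pow_le_pow_left₀ (by norm_num) h12 8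
    _ = exp 8 := by rw [← exp_nat_mul]; norm_num

theorem log_two_le : log 2 ≤ 1 := by
  have := log_le_sub_one_of_pos (show (0 : ℝ) < 2 by norm_num)
  linarith

/-- the size of the smallest block -/
theorem w_le {t τ d ℓ N0 a : ℝ} (ht : 100 ≤ t) (hd : 1 ≤ d) (hlt8 : 8 ≤ log t) (hτ : τ < t + 1)
    (hℓ0 : 0 < ℓ) (hℓ2 : ℓ ≤ 2 * log t) (hτ0 : 0 < τ) (ha : a + 1 = τ)
    (hN0 : N0 < 4 * (τ + d) * ℓ + 1) : 2 * (N0 + a) + 1 ≤ 34 * ((t + d) * log t) := by
  have h2 : 4 * (τ + d) * ℓ ≤ 4 * (2 * (t + d)) * (2 * log t) := by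
    have h3 : τ + d ≤ 2 * (t + d) := by linarith
    gcongr
  have h5 : (t + d) * 8 ≤ (t + d) * log t := by gcongr
  linarith

theorem N3_aux {n m d ν T : ℕ} (hn : 1 ≤ n) (hd : 1 ≤ d) (hν : ν < n) (hT : 1 ≤ T)
    (hnm : n ≤ m * d + ν)
    (H : ∀ D N a : ℕ, 1 ≤ D → a < N → D * (2 * (N + a) + 1) ≤ n → D < m → ∀ q : ℝ, 0 < q → q < 1 →
      q ^ (ν + D * (d - 1)) * (1 - (1 - q ^ N) ^ (a + 1)) ^ (2 * D) ≤
        q ^ ((N - a) * (2 * D)) * (T * ∑ j ∈ Finset.range (2 * D + 1),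
          (Nat.choose (2 * m - 2 * D - 1 + j) j : ℝ) * (1 - q ^ d) ^ j))
    {η μ t : ℝ} (hη : η = 1 - ν / n) (hμ : μ = max 1 ((m : ℝ) * d / n))
    (ht : t = (exp 8 * μ * (1 + log (μ / η)) / η) ^ (1 / η)) :
    exp (n / (exp 8 * (t + d) * log t)) ≤ 2 * T := by
  have hn' : (1 : ℝ) ≤ n := by exact_mod_cast hn
  have hn0 : (0 : ℝ) < n := by linarith
  have hd' : (1 : ℝ) ≤ d := by exact_mod_cast hd
  have hT' : (1 : ℝ) ≤ T := by exact_mod_cast hT
  have hν' : (ν : ℝ) < n := by exact_mod_cast hν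
  have hη0 : 0 < η := by
    rw [hη, sub_pos, div_lt_one hn0]; exact hν'
  have hη1 : η ≤ 1 := by
    rw [hη]; have : 0 ≤ (ν : ℝ) / n := by positivity
    linarith
  have hνη : (ν : ℝ) = (1 - η) * n := by
    rw [hη]; field_simp; ring
  have hμ1 : 1 ≤ μ := by rw [hμ]; exact le_max_left _ _
  have hμm : (m : ℝ) * d ≤ μ * n := by
    have : (m : ℝ) * d / n ≤ μ := by rw [hμ]; exact le_max_right _ _
    rwa [div_le_iff₀ hn0] at this
  obtain ⟨ht0, hlt8, hηlt, -⟩ := key hμ1 hη0 hη1 rfl ht (le_refl (log t))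
  have h8 := exp_eight
  have ht8 : 100 ≤ t := by
    refine h8.trans ?_
    rw [← exp_log ht0]; exact exp_le_exp.2 hlt8
  obtain ⟨τ, hτ⟩ : ∃ τ, τ = ⌈t⌉₊ := ⟨_, rfl⟩
  have hτt : t ≤ τ := by rw [hτ]; exact Nat.le_ceil t
  have hτt2 : (τ : ℝ) < t + 1 := by rw [hτ]; exact Nat.ceil_lt_add_one ht0.le
  have hτ0 : (0 : ℝ) < τ := by linarith
  have hτ1 : 100 ≤ τ := by
    have : (100 : ℝ) ≤ τ := by linarith
    exact_mod_cast this
  obtain ⟨ℓ, hℓ⟩ : ∃ ℓ, ℓ = log (τ : ℝ) := ⟨_, rfl⟩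
  have hℓt : log t ≤ ℓ := by rw [hℓ]; exact log_le_log ht0 hτt
  have hℓ2 : ℓ ≤ 2 * log t := by
    have h1 : ℓ ≤ log (2 * t) := by rw [hℓ]; exact log_le_log hτ0 (by linarith)
    rw [log_mul (by norm_num) ht0.ne'] at h1
    have := log_two_le
    linarith
  obtain ⟨-, -, -, hkey⟩ := key hμ1 hη0 hη1 rfl ht hℓt
  have hℓ0 : 0 < ℓ := by linarith
  have hℓ1 : 1 ≤ ℓ := by linarith
  obtain ⟨a, ha⟩ : ∃ a, τ = a + 1 := ⟨τ - 1, by omega⟩
  have haτ : (a : ℝ) + 1 = τ := by rw [ha]; push_cast; ring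
  obtain ⟨N0, hN0⟩ : ∃ N0, N0 = ⌈4 * ((τ : ℝ) + d) * ℓ⌉₊ := ⟨_, rfl⟩
  have hN0a : 4 * ((τ : ℝ) + d) * ℓ ≤ N0 := by rw [hN0]; exact Nat.le_ceil _
  have hN0b : (N0 : ℝ) < 4 * (τ + d) * ℓ + 1 := by
    rw [hN0]; exact Nat.ceil_lt_add_one (by positivity)
  have hw := w_le ht8 hd' hlt8 hτt2 hℓ0 hℓ2 hτ0 haτ hN0b
  have hWpos : 0 < (t + d) * log t := by
    apply mul_pos <;> linarith
  have hden : 0 < exp 8 * (t + d) * log t := by
    rw [mul_assoc]; positivity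
  by_cases hcase : 2 * (N0 + a) + 1 ≤ n
  · obtain ⟨D, N, hD1, hN, hDN, hnD, hnw⟩ := choose_N hcase
    have hD1' : (1 : ℝ) ≤ D := by exact_mod_cast hD1
    have hD0 : (0 : ℝ) < D := by linarith
    have hN' : (N0 : ℝ) ≤ N := by exact_mod_cast hN
    have hNbig : 4 * ((τ : ℝ) + d) * ℓ ≤ N := hN0a.trans hN'
    have hτN : (4 : ℝ) * (τ + d) ≤ N := by
      refine le_trans ?_ hNbig
      have : 0 < 4 * ((τ : ℝ) + d) := by linarith
      calc 4 * ((τ : ℝ) + d) = 4 * ((τ : ℝ) + d) * 1 := by ring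
        _ ≤ _ := by gcongr
    have hN0' : (0 : ℝ) < N := by linarith
    have haN : a < N := by
      have : (a : ℝ) < N := by linarith
      exact_mod_cast this
    have hDN' : (D : ℝ) * (2 * (N + a) + 1) ≤ n := by exact_mod_cast hDN
    have hnD' : (n : ℝ) < D * (2 * (N + a) + 3) := by exact_mod_cast hnD
    have hnm' : (n : ℝ) ≤ m * d + ν := by exact_mod_cast hnm
    obtain ⟨x, hx⟩ : ∃ x, x = ℓ / N := ⟨_, rfl⟩
    have hx0 : 0 < x := by rw [hx]; positivity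
    have hNx : N * x = ℓ := by rw [hx]; field_simp
    have hτdx : 4 * ((τ : ℝ) + d) * x ≤ 1 := by
      rw [hx, ← mul_div_assoc, div_le_one hN0']; exact hNbig
    have hηℓ : 8 ≤ η * ℓ := by
      refine hηlt.trans ?_
      gcongr
    have hDm : D < m := D_lt hη0 hνη hnm' hd' hD1' hτ0 hℓ0 hηℓ hDN' hNbig
    obtain ⟨q, hq⟩ : ∃ q, q = exp (-x) := ⟨_, rfl⟩
    have hq0 : 0 < q := by rw [hq]; exact exp_pos _
    have hq1 : q < 1 := by rw [hq, ← exp_zero]; exact exp_lt_exp.2 (by linarith)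
    have hqpow : ∀ k : ℕ, q ^ k = exp (-(k * x)) := by
      intro k
      rw [hq, ← exp_nat_mul]
      congr 1
      ring
    have hH := H D N a hD1 haN hDN hDm q hq0 hq1
    have hqN : q ^ N = 1 / τ := by
      rw [hqpow, hNx, exp_neg, hℓ, exp_log hτ0, one_div]
    have hhalf : (1 / 2 : ℝ) ≤ 1 - (1 - q ^ N) ^ (a + 1) := by
      have h1 : (1 - 1 / (τ : ℝ)) ^ τ ≤ exp (-1) := one_sub_div_pow_le_exp_neg (by linarith)
      have h2 := exp_neg_one_le
      rw [hqN, ← ha]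
      linarith
    have hqd : 1 - q ^ d ≤ d * x := by
      rw [hqpow]
      have := add_one_le_exp (-(d * x))
      linarith
    have hsum := sum_le hD1 hDm hμ1 hμm hℓ1 hx0 hNx hnD' (by linarith) hq0 hq1 hqd
    have hmain : exp (-((ν + D * (d - 1)) * x)) * (1 / 2) ^ (2 * D) ≤
        exp (-((N - a) * (2 * D) * x)) * (T * (3 * exp 1 * μ * ℓ) ^ (2 * D)) := by
      have h1 : q ^ (ν + D * (d - 1)) = exp (-((ν + D * (d - 1)) * x)) := by
        rw [hqpow]
        push_cast [Nat.cast_sub hd]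
        rfl
      have h2 : q ^ ((N - a) * (2 * D)) = exp (-((N - a) * (2 * D) * x)) := by
        rw [hqpow]
        push_cast [Nat.cast_sub haN.le]
        rfl
      rw [← h1, ← h2]
      calc q ^ (ν + D * (d - 1)) * (1 / 2) ^ (2 * D)
          ≤ q ^ (ν + D * (d - 1)) * (1 - (1 - q ^ N) ^ (a + 1)) ^ (2 * D) := by gcongr
        _ ≤ _ := hH
        _ ≤ _ := by gcongr
    have hTD : exp D ≤ (T : ℝ) := exp_le_T hd' hD1' hx0 hNx hη1 hνη hnD' haτ hτdx hμ1 hℓ1 hkey hmain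
    have hfin : (n : ℝ) / (exp 8 * (t + d) * log t) ≤ D := by
      rw [div_le_iff₀ hden]
      have h2 : (n : ℝ) ≤ 2 * D * (2 * (N0 + a) + 1) := by exact_mod_cast hnw
      calc (n : ℝ) ≤ 2 * D * (2 * (N0 + a) + 1) := h2
        _ ≤ 2 * D * (34 * ((t + d) * log t)) := by gcongr
        _ = D * (68 * ((t + d) * log t)) := by ring
        _ ≤ D * (exp 8 * ((t + d) * log t)) := by gcongr; linarith
        _ = D * (exp 8 * (t + d) * log t) := by ring
    calc exp (n / (exp 8 * (t + d) * log t)) ≤ exp D := exp_le_exp.2 hfin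
      _ ≤ T := hTD
      _ ≤ 2 * T := by linarith
  · have h1 : (n : ℝ) ≤ 34 * ((t + d) * log t) := by
      have h11 : n ≤ 2 * (N0 + a) + 1 := by omega
      have h12 : (n : ℝ) ≤ 2 * (N0 + a) + 1 := by exact_mod_cast h11
      linarith
    have h2 : (n : ℝ) / (exp 8 * (t + d) * log t) ≤ log 2 := by
      rw [div_le_iff₀ hden]
      have h5 : (1 / 2 : ℝ) ≤ log 2 := by
        have := log_two_gt_d9
        linarith
      calc (n : ℝ) ≤ 34 * ((t + d) * log t) := h1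
        _ ≤ (1 / 2 * exp 8) * ((t + d) * log t) := by gcongr; linarith
        _ ≤ (log 2 * exp 8) * ((t + d) * log t) := by gcongr
        _ = log 2 * (exp 8 * (t + d) * log t) := by ring
    calc exp (n / (exp 8 * (t + d) * log t)) ≤ exp (log 2) := exp_le_exp.2 h2
      _ = 2 := exp_log (by norm_num)
      _ ≤ 2 * T := by linarith

/-- **N3** -/
theorem N3 : ∃ C : ℝ, 1 ≤ C ∧ ∀ n m d ν T : ℕ, 1 ≤ n → 1 ≤ d → ν < n → 1 ≤ T →
    n ≤ m * d + ν →
    (∀ D N a : ℕ, 1 ≤ D → a < N → D * (2 * (N + a) + 1) ≤ n → D < m → ∀ q : ℝ, 0 < q → q < 1 →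
      q ^ (ν + D * (d - 1)) * (1 - (1 - q ^ N) ^ (a + 1)) ^ (2 * D) ≤
        q ^ ((N - a) * (2 * D)) * (T * ∑ j ∈ Finset.range (2 * D + 1),
          (Nat.choose (2 * m - 2 * D - 1 + j) j : ℝ) * (1 - q ^ d) ^ j)) →
    ∀ η μ t : ℝ, η = 1 - ν / n → μ = max 1 ((m : ℝ) * d / n) →
      t = (C * μ * (1 + Real.log (μ / η)) / η) ^ (1 / η) →
      Real.exp (n / (C * (t + d) * Real.log t)) ≤ 2 * T := by
  refine ⟨exp 8, one_le_exp (by norm_num), ?_⟩
  intro n m d ν T hn hd hν hT hnm H η μ t hη hμ ht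
  exact N3_aux hn hd hν hT hnm H hη hμ ht

end Helper86.SDET
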